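import Pool.Agent.R630.CSA.Main

set_option autoImplicit false

/-!
# MP_b9311c_al, Q1: a non-abelian profinite CSA-group that is not pro-`p` for any `p`

The group is the set of quaternions `x = a + b i + c j + d k` over `ℤ_5`, with `i² = 2`, `j² = 5`,
`ij = k = -ji`, of norm `1` and such that `a + b i` modulo `5` is a cube root of unity in `F_25`
(a complement of `{±1}` in the norm one units of the maximal order of the quaternion division
algebra over `ℚ_5`). It is an extension of a pro-`5` group by the cyclic group of order `3`.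
-/

namespace Pool.Agent.Results.MP_b9311c_al.QuaternionCSA

/-- There is a non-abelian profinite group `Γ` such that every maximal abelian subgroup `A` of `Γ`
is malnormal (if `g ∉ A`, `x ∈ A` and `g⁻¹ x g ∈ A` then `x = 1`), and which is not pro-`p`
for any prime `p` (some quotient by an open normal subgroup is not a `p`-group). -/
theorem result :
    ∃ (Γ : Type) (_ : Group Γ) (_ : TopologicalSpace Γ) (_ : IsTopologicalGroup Γ)
      (_ : CompactSpace Γ) (_ : T2Space Γ) (_ : TotallyDisconnectedSpace Γ),
      (∃ x y : Γ, x * y ≠ y * x) ∧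
      (∀ A : Subgroup Γ, Maximal (fun B : Subgroup Γ => ∀ x ∈ B, ∀ y ∈ B, x * y = y * x) A →
        ∀ g : Γ, g ∉ A → ∀ x ∈ A, g⁻¹ * x * g ∈ A → x = 1) ∧
      (∀ p : ℕ, p.Prime →
        ∃ (N : Subgroup Γ) (_ : N.Normal), IsOpen (N : Set Γ) ∧ ¬ IsPGroup p (Γ ⧸ N)) :=
  ⟨Pool.Agent.R630.CSA.Γ, inferInstance, inferInstance, inferInstance, inferInstance,
    inferInstance, inferInstance, ⟨_, _, Pool.Agent.R630.CSA.nonabelian⟩,
    Pool.Agent.R630.CSA.csa, Pool.Agent.R630.CSA.not_pro⟩

end Pool.Agent.Results.MP_b9311c_al.QuaternionCSA
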